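import Mathlib

/-!
# MP_5288f0_an: the two-bump solution becomes the vortex in finite time
-/

open Set Filter MeasureTheory
open scoped Topology

namespace Pool.Agent.Results.MP_5288f0_an.ShocksMerge

noncomputable section

/-- The density `(α t)^(-1/α)` on `(ρ₁, S₁(t))`. -/
def uin (α t : ℝ) : ℝ := (α * t) ^ (-1 / α)

/-- The density of the rarefaction fan. -/
def fan (α ρ₂ m₁ t ρ : ℝ) : ℝ :=
  (((ρ - ρ₂) / (α * m₁ * t)) ^ (-(α / (α - 1))) + α * t) ^ (-1 / α)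

/-- The density to the right of the inner shock: zero before `ρ₂`, the fan after `ρ₂`. -/
def uout (α ρ₂ m₁ t ρ : ℝ) : ℝ := if ρ ≤ ρ₂ then 0 else fan α ρ₂ m₁ t ρ

/-- The mass `m(t, S₁(t))` inside of the inner shock. -/
def mass₁ (α ρ₁ : ℝ) (S₁ : ℝ → ℝ) (t : ℝ) : ℝ := (S₁ t - ρ₁) * uin α t

/-- The mass `m(t, S₂(t))` inside of the outer shock. -/
def mass₂ (α ρ₁ ρ₂ m₁ : ℝ) (S₁ S₂ : ℝ → ℝ) (t : ℝ) : ℝ :=
  mass₁ α ρ₁ S₁ t + ∫ r in (max (S₁ t) ρ₂)..(S₂ t), fan α ρ₂ m₁ t r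

/-- `(S₁, S₂)` are the shocks of the two-bump solution: for small times the two bumps have the masses
`m₁` and `m₂`; both shocks move continuously and, as long as they have not met, by the
Rankine-Hugoniot condition. -/
structure TwoBump (α ρ₁ ρ₂ m₁ m₂ : ℝ) (S₁ S₂ : ℝ → ℝ) : Prop where
  cont₁ : ContinuousOn S₁ (Ioi 0)
  cont₂ : ContinuousOn S₂ (Ioi 0)
  edge : ∀ t, 0 < t → ρ₂ < S₂ t
  small : ∃ t₀ > 0, ∀ t, 0 < t → t ≤ t₀ → ρ₁ < S₁ t ∧ S₁ t < ρ₂ ∧ mass₁ α ρ₁ S₁ t = m₁ ∧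
    ∫ r in ρ₂..(S₂ t), fan α ρ₂ m₁ t r = m₂
  rh₁ : ∀ t, 0 < t → (∀ s, 0 < s → s ≤ t → S₁ s < S₂ s) →
    HasDerivAt S₁ (mass₁ α ρ₁ S₁ t * ((uout α ρ₂ m₁ t (S₁ t) ^ α - uin α t ^ α)
      / (uout α ρ₂ m₁ t (S₁ t) - uin α t))) t
  rh₂ : ∀ t, 0 < t → (∀ s, 0 < s → s ≤ t → S₁ s < S₂ s) →
    HasDerivAt S₂ (mass₂ α ρ₁ ρ₂ m₁ S₁ S₂ t * ((0 ^ α - fan α ρ₂ m₁ t (S₂ t) ^ α)
      / (0 - fan α ρ₂ m₁ t (S₂ t)))) t

/-- The time at which the shocks meet. -/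
def mergeTime (α ρ₁ ρ₂ m₁ m₂ : ℝ) : ℝ :=
  ((ρ₂ - ρ₁) / (m₁ + m₂ - ((m₁ + m₂) ^ (α / (α - 1)) - m₁ ^ (α / (α - 1))) ^ ((α - 1) / α))) ^ α / α

/-! ### Auxiliary functions -/

/-- `z₊ ^ p` -/
def zp (p z : ℝ) : ℝ := (max z 0) ^ p

lemma zp_nonneg (p z : ℝ) : 0 ≤ zp p z := Real.rpow_nonneg (le_max_right _ _) _

lemma zp_of_pos {p z : ℝ} (hz : 0 < z) : zp p z = z ^ p := by rw [zp, max_eq_left hz.le]

lemma zp_of_nonpos {p z : ℝ} (hp : p ≠ 0) (hz : z ≤ 0) : zp p z = 0 := by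
  rw [zp, max_eq_right hz, Real.zero_rpow hp]

lemma hasDerivAt_zp {p : ℝ} (hp : 1 < p) (z : ℝ) : HasDerivAt (zp p) (p * zp (p - 1) z) z := by
  rcases lt_trichotomy z 0 with hz | hz | hz
  · rw [zp_of_nonpos (by linarith) hz.le, mul_zero]
    refine (hasDerivAt_const z (0 : ℝ)).congr_of_eventuallyEq ?_
    filter_upwards [Iio_mem_nhds hz] with y hy
    exact zp_of_nonpos (by linarith) (le_of_lt hy)
  · subst hz
    rw [zp_of_nonpos (by linarith) le_rfl, mul_zero]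
    rw [hasDerivAt_iff_isLittleO_nhds_zero]
    simp only [zero_add, smul_zero, sub_zero]
    rw [zp_of_nonpos (by linarith) le_rfl]
    simp only [sub_zero]
    rw [Asymptotics.isLittleO_iff]
    intro c hc
    have h1 : Tendsto (fun h : ℝ => |h| ^ (p - 1)) (𝓝 0) (𝓝 0) := by
      have : Continuous fun h : ℝ => |h| ^ (p - 1) :=
        continuous_abs.rpow_const fun _ => Or.inr (by linarith)
      have h2 := this.tendsto 0
      simpa [Real.zero_rpow (by linarith : p - 1 ≠ 0)] using h2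
    filter_upwards [h1.eventually (gt_mem_nhds hc)] with h hh
    rw [Real.norm_of_nonneg (zp_nonneg p h), Real.norm_eq_abs]
    have h3 : zp p h ≤ |h| ^ p :=
      Real.rpow_le_rpow (le_max_right _ _) (max_le (le_abs_self h) (abs_nonneg h)) (by linarith)
    by_cases h0 : h = 0
    · subst h0; simp [zp_of_nonpos (by linarith : p ≠ 0) le_rfl]
    · have h4 : |h| ^ p = |h| ^ (p - 1) * |h| := by
        rw [← Real.rpow_add_one (abs_ne_zero.2 h0), sub_add_cancel]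
      rw [h4] at h3
      exact h3.trans (mul_le_mul_of_nonneg_right (le_of_lt hh) (abs_nonneg _))
  · rw [zp_of_pos hz]
    have h1 := Real.hasDerivAt_rpow_const (x := z) (p := p) (Or.inl hz.ne')
    refine h1.congr_of_eventuallyEq ?_
    filter_upwards [Ioi_mem_nhds hz] with y hy
    exact zp_of_pos hy

variable {α : ℝ}

/-- the exponent `α / (α - 1)` -/
def pp (α : ℝ) : ℝ := α / (α - 1)

lemma pp_gt (hα : 1 < α) : 1 < pp α := by
  rw [pp, lt_div_iff₀ (by linarith)]; linarith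

lemma inv_pp (hα : 1 < α) : 1 / pp α = 1 - 1 / α := by
  have : α ≠ 0 := by linarith
  rw [pp, one_div_div, sub_div, div_self this]

lemma pp_sub (hα : 1 < α) : α * (pp α - 1) = pp α := by
  have : α - 1 ≠ 0 := by linarith
  rw [pp]; field_simp; ring

/-- the profile of the mass -/
def kk (α w : ℝ) : ℝ := (1 + zp (pp α) w) ^ (1 / pp α)

/-- the profile of the density -/
def hh (α w : ℝ) : ℝ := zp (pp α - 1) w * (1 + zp (pp α) w) ^ (-1 / α)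

lemma one_add_zp_pos (p w : ℝ) : 0 < 1 + zp p w := by linarith [zp_nonneg p w]

lemma hh_nonneg (α w : ℝ) : 0 ≤ hh α w :=
  mul_nonneg (zp_nonneg _ _) (Real.rpow_nonneg (one_add_zp_pos _ _).le _)

lemma kk_pos (α w : ℝ) : 0 < kk α w := Real.rpow_pos_of_pos (one_add_zp_pos _ _) _

lemma hasDerivAt_kk (hα : 1 < α) (w : ℝ) : HasDerivAt (kk α) (hh α w) w := by
  have h1 := ((hasDerivAt_zp (pp_gt hα) w).const_add 1).rpow_const (p := 1 / pp α)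
    (Or.inl (one_add_zp_pos _ _).ne')
  have hp : pp α ≠ 0 := by linarith [pp_gt hα]
  have e : pp α * zp (pp α - 1) w * (1 / pp α) * (1 + zp (pp α) w) ^ (1 / pp α - 1) = hh α w := by
    rw [hh, inv_pp hα, show (1 : ℝ) - 1 / α - 1 = -1 / α by ring]
    rw [← inv_pp hα]
    field_simp
  rw [e] at h1
  exact h1

lemma hh_rpow (hα : 1 < α) (w : ℝ) : hh α w ^ α = zp (pp α) w / (1 + zp (pp α) w) := by
  have hα0 : α ≠ 0 := by linarith
  rw [hh, Real.mul_rpow (zp_nonneg _ _) (Real.rpow_nonneg (one_add_zp_pos _ _).le _),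
    ← Real.rpow_mul (one_add_zp_pos _ _).le, zp, ← Real.rpow_mul (le_max_right _ _),
    mul_comm (pp α - 1) α, pp_sub hα, div_mul_cancel₀ _ hα0, Real.rpow_neg_one, div_eq_mul_inv]
  rfl

lemma hh_lt_one (hα : 1 < α) (w : ℝ) : hh α w < 1 := by
  by_contra hcon
  push Not at hcon
  have h1 : 1 ≤ hh α w ^ α := Real.one_le_rpow hcon (by linarith)
  rw [hh_rpow hα, le_div_iff₀ (one_add_zp_pos _ _)] at h1
  linarith

lemma hk (hα : 1 < α) {w : ℝ} (hw : 0 < w) : hh α w ^ (α - 1) * kk α w = w := by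
  have hα0 : α ≠ 0 := by linarith
  have hα1 : α - 1 ≠ 0 := by linarith
  rw [hh, kk, Real.mul_rpow (zp_nonneg _ _) (Real.rpow_nonneg (one_add_zp_pos _ _).le _),
    ← Real.rpow_mul (one_add_zp_pos _ _).le, mul_assoc, ← Real.rpow_add (one_add_zp_pos _ _), inv_pp hα,
    zp_of_pos hw (p := pp α - 1), ← Real.rpow_mul hw.le]
  have e1 : (pp α - 1) * (α - 1) = 1 := by rw [pp]; field_simp; ring
  have e2 : -1 / α * (α - 1) + (1 - 1 / α) = 0 := by field_simp; ring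
  rw [e1, e2, Real.rpow_one, Real.rpow_zero, mul_one]

lemma hk' (hα : 1 < α) (w : ℝ) : hh α w ^ α * kk α w = w * hh α w := by
  rcases le_or_gt w 0 with hw | hw
  · have h0 : hh α w = 0 := by
      rw [hh, zp_of_nonpos (by linarith [pp_gt hα]) hw, zero_mul]
    rw [h0, Real.zero_rpow (by linarith), zero_mul, mul_zero]
  · have h0 : 0 < hh α w := by
      rw [hh, zp_of_pos hw]
      exact mul_pos (Real.rpow_pos_of_pos hw _) (Real.rpow_pos_of_pos (one_add_zp_pos _ _) _)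
    have e : hh α w ^ α = hh α w ^ (α - 1) * hh α w := by
      rw [← Real.rpow_add_one h0.ne', sub_add_cancel]
    rw [e, mul_right_comm, hk hα hw]

/-- the scale `(α t)^(1/α)` -/
def ta (α t : ℝ) : ℝ := (α * t) ^ (1 / α)

lemma ta_pos (hα : 1 < α) {t : ℝ} (ht : 0 < t) : 0 < ta α t :=
  Real.rpow_pos_of_pos (mul_pos (by linarith) ht) _

lemma uin_eq (hα : 1 < α) {t : ℝ} (ht : 0 < t) : uin α t = 1 / ta α t := by
  have : 0 < α * t := mul_pos (by linarith) ht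
  rw [uin, ta, neg_div, Real.rpow_neg this.le, one_div, one_div]

lemma ta_rpow (hα : 1 < α) {t : ℝ} (ht : 0 < t) : ta α t ^ α = α * t := by
  have : 0 < α * t := mul_pos (by linarith) ht
  rw [ta, ← Real.rpow_mul this.le, one_div_mul_cancel (by linarith), Real.rpow_one]

lemma hasDerivAt_ta (hα : 1 < α) {t : ℝ} (ht : 0 < t) :
    HasDerivAt (ta α) (ta α t / (α * t)) t := by
  have h0 : 0 < α * t := mul_pos (by linarith) ht
  have hα0 : α ≠ 0 := by linarith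
  have h1 := (((hasDerivAt_id t).const_mul α).rpow_const (p := 1 / α) (Or.inl h0.ne'))
  simp only [id, mul_one] at h1
  have e : α * (1 / α) * (α * t) ^ (1 / α - 1) = ta α t / (α * t) := by
    rw [mul_one_div_cancel hα0, one_mul, Real.rpow_sub_one h0.ne', ta]
  rw [e] at h1
  exact h1

lemma fan_eq (hα : 1 < α) {ρ₂ m₁ t ρ : ℝ} (hm : 0 < m₁) (ht : 0 < t) (hρ : ρ₂ < ρ) :
    fan α ρ₂ m₁ t ρ = hh α ((ρ - ρ₂) / (m₁ * ta α t)) / ta α t := by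
  have hα0 : 0 < α := by linarith
  have hat : 0 < α * t := mul_pos hα0 ht
  have hp := pp_gt hα
  set w := (ρ - ρ₂) / (m₁ * ta α t) with hw
  have hw0 : 0 < w := div_pos (by linarith) (mul_pos hm (ta_pos hα ht))
  -- `X = w (α t)^(1/α - 1) = w (α t)^(-1/p)`
  have hX : (ρ - ρ₂) / (α * m₁ * t) = w * (α * t) ^ (-(1 / pp α)) := by
    have e1 : (α * t) ^ (-(1 / pp α)) = ta α t / (α * t) := by
      rw [inv_pp hα, show -(1 - 1 / α) = 1 / α - 1 by ring, Real.rpow_sub_one hat.ne', ta]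
    rw [e1, hw]
    have := (ta_pos hα ht).ne'
    field_simp
  have hXp : ((ρ - ρ₂) / (α * m₁ * t)) ^ (-(α / (α - 1))) = w ^ (-pp α) * (α * t) := by
    rw [hX, ← pp, Real.mul_rpow hw0.le (Real.rpow_nonneg hat.le _), ← Real.rpow_mul hat.le,
      neg_mul_neg, one_div_mul_cancel (by linarith), Real.rpow_one]
  rw [fan, hXp]
  have e2 : w ^ (-pp α) * (α * t) + α * t = (α * t) * (w ^ (-pp α) * (1 + w ^ pp α)) := by
    rw [mul_add, mul_one, ← Real.rpow_add hw0, neg_add_cancel, Real.rpow_zero]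
    ring
  have hpos1 : 0 < w ^ (-pp α) := Real.rpow_pos_of_pos hw0 _
  have hpos2 : 0 < 1 + w ^ pp α := by linarith [Real.rpow_pos_of_pos hw0 (pp α)]
  rw [e2, Real.mul_rpow hat.le (mul_pos hpos1 hpos2).le, Real.mul_rpow hpos1.le hpos2.le,
    ← Real.rpow_mul hw0.le]
  have e3 : -pp α * (-1 / α) = pp α - 1 := by
    have := pp_sub hα
    field_simp
    linarith
  rw [e3, hh, zp_of_pos hw0, zp_of_pos hw0]
  have e4 : (α * t) ^ (-1 / α) = 1 / ta α t := uin_eq hα ht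
  rw [e4]
  ring

lemma uout_eq (hα : 1 < α) {ρ₂ m₁ t ρ : ℝ} (hm : 0 < m₁) (ht : 0 < t) :
    uout α ρ₂ m₁ t ρ = hh α ((ρ - ρ₂) / (m₁ * ta α t)) / ta α t := by
  rw [uout]
  split_ifs with h
  · have h1 : (ρ - ρ₂) / (m₁ * ta α t) ≤ 0 :=
      div_nonpos_of_nonpos_of_nonneg (by linarith) (mul_pos hm (ta_pos hα ht)).le
    rw [hh, zp_of_nonpos (by linarith [pp_gt hα]) h1, zero_mul, zero_div]
  · exact fan_eq hα hm ht (not_le.1 h)

lemma continuous_zp {p : ℝ} (hp : 0 < p) : Continuous (zp p) := by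
  unfold zp
  exact (continuous_id.max continuous_const).rpow_const fun _ => Or.inr hp.le

lemma continuous_kk (hα : 1 < α) : Continuous (kk α) :=
  continuous_iff_continuousAt.2 fun w => (hasDerivAt_kk hα w).continuousAt

lemma continuous_hh (hα : 1 < α) : Continuous (hh α) := by
  unfold hh
  have hp := pp_gt hα
  refine (continuous_zp (by linarith)).mul ?_
  exact (continuous_const.add (continuous_zp (by linarith))).rpow_const fun w =>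
    Or.inl (one_add_zp_pos _ _).ne'

/-- the mass in the fan -/
lemma integral_fan (hα : 1 < α) {ρ₂ m₁ t a b : ℝ} (hm : 0 < m₁) (ht : 0 < t) (ha : ρ₂ ≤ a)
    (hab : a ≤ b) : ∫ r in a..b, fan α ρ₂ m₁ t r
      = m₁ * kk α ((b - ρ₂) / (m₁ * ta α t)) - m₁ * kk α ((a - ρ₂) / (m₁ * ta α t)) := by
  have hta := ta_pos hα ht
  have h1 : ∫ r in a..b, fan α ρ₂ m₁ t r
      = ∫ r in a..b, hh α ((r - ρ₂) / (m₁ * ta α t)) / ta α t := by
    refine intervalIntegral.integral_congr_ae ?_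
    refine Eventually.of_forall fun r hr => ?_
    rw [uIoc_of_le hab] at hr
    exact fan_eq hα hm ht (lt_of_le_of_lt ha hr.1)
  rw [h1]
  refine intervalIntegral.integral_eq_sub_of_hasDerivAt (f := fun r => m₁ * kk α ((r - ρ₂) / (m₁ * ta α t)))
    (fun r _ => ?_) ?_
  · have h2 : HasDerivAt (fun r : ℝ => (r - ρ₂) / (m₁ * ta α t)) (1 / (m₁ * ta α t)) r :=
      ((hasDerivAt_id r).sub_const ρ₂).div_const _
    have h3 := ((hasDerivAt_kk hα _).comp r h2).const_mul m₁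
    have e : m₁ * (hh α ((r - ρ₂) / (m₁ * ta α t)) * (1 / (m₁ * ta α t)))
        = hh α ((r - ρ₂) / (m₁ * ta α t)) / ta α t := by
      field_simp
    rw [e] at h3
    exact h3
  · refine Continuous.intervalIntegrable ?_ _ _
    exact ((continuous_hh hα).comp (by fun_prop)).div_const _

/-! ### Monotonicity of `G(w) = k(w) - w` -/

lemma strictAnti_G (hα : 1 < α) : StrictAnti fun w => kk α w - w := by
  refine strictAnti_of_deriv_neg fun w => ?_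
  have h := (hasDerivAt_kk hα w).sub (hasDerivAt_id w)
  have e : deriv (fun w => kk α w - w) w = hh α w - 1 := h.deriv
  rw [e]
  linarith [hh_lt_one hα w]

/-! ### The equations in self-similar variables -/

section main

variable {ρ₁ ρ₂ m₁ m₂ : ℝ} {S₁ S₂ : ℝ → ℝ}

/-- the self-similar position -/
def ww (α ρ₂ m₁ : ℝ) (S : ℝ → ℝ) (t : ℝ) : ℝ := (S t - ρ₂) / (m₁ * ta α t)

/-- the defect of the mass balance -/
def DD (α ρ₁ ρ₂ m₁ : ℝ) (S₁ : ℝ → ℝ) (t : ℝ) : ℝ := mass₁ α ρ₁ S₁ t - m₁ * kk α (ww α ρ₂ m₁ S₁ t)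

lemma hasDerivAt_ww (hα : 1 < α) (hm : 0 < m₁) {S : ℝ → ℝ} {S' t : ℝ} (ht : 0 < t)
    (hS : HasDerivAt S S' t) :
    HasDerivAt (ww α ρ₂ m₁ S) (S' / (m₁ * ta α t) - ww α ρ₂ m₁ S t / (α * t)) t := by
  have hta := ta_pos hα ht
  have h1 := (hS.sub_const ρ₂).div ((hasDerivAt_ta hα ht).const_mul m₁) (mul_pos hm hta).ne'
  have hat : α * t ≠ 0 := (mul_pos (by linarith) ht).ne'
  have e : (S' * (m₁ * ta α t) - (S t - ρ₂) * (m₁ * (ta α t / (α * t)))) / (m₁ * ta α t) ^ 2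
      = S' / (m₁ * ta α t) - ww α ρ₂ m₁ S t / (α * t) := by
    rw [ww]
    have := hta.ne'
    have := hm.ne'
    field_simp
  rw [e] at h1
  exact h1

lemma mass₁_eq (hα : 1 < α) {t : ℝ} (ht : 0 < t) : mass₁ α ρ₁ S₁ t = (S₁ t - ρ₁) / ta α t := by
  rw [mass₁, uin_eq hα ht, mul_one_div]

lemma hasDerivAt_mass (hα : 1 < α) {S' t : ℝ} (ht : 0 < t) (hS : HasDerivAt S₁ S' t) :
    HasDerivAt (mass₁ α ρ₁ S₁) (S' / ta α t - mass₁ α ρ₁ S₁ t / (α * t)) t := by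
  have hta := ta_pos hα ht
  have h1 := (hS.sub_const ρ₁).div (hasDerivAt_ta hα ht) hta.ne'
  have hat : α * t ≠ 0 := (mul_pos (by linarith) ht).ne'
  have e : (S' * ta α t - (S₁ t - ρ₁) * (ta α t / (α * t))) / ta α t ^ 2
      = S' / ta α t - mass₁ α ρ₁ S₁ t / (α * t) := by
    rw [mass₁_eq hα ht]
    have := hta.ne'
    field_simp
  rw [e] at h1
  refine h1.congr_of_eventuallyEq ?_
  filter_upwards [Ioi_mem_nhds ht] with s hs
  exact mass₁_eq hα hs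

/-- the right hand side of the Rankine-Hugoniot condition at the inner shock -/
lemma rh₁_eq (hα : 1 < α) (hm : 0 < m₁) {t : ℝ} (ht : 0 < t) :
    (uout α ρ₂ m₁ t (S₁ t) ^ α - uin α t ^ α) / (uout α ρ₂ m₁ t (S₁ t) - uin α t)
      = ta α t * (1 - hh α (ww α ρ₂ m₁ S₁ t) ^ α) / ((1 - hh α (ww α ρ₂ m₁ S₁ t)) * (α * t)) := by
  have hta := ta_pos hα ht
  have hat : 0 < α * t := mul_pos (by linarith) ht
  rw [uout_eq hα hm ht, uin_eq hα ht, Real.div_rpow (hh_nonneg _ _) hta.le,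
    Real.div_rpow zero_le_one hta.le, ta_rpow hα ht, Real.one_rpow, ← sub_div, ← sub_div]
  change (hh α (ww α ρ₂ m₁ S₁ t) ^ α - 1) / (α * t) / ((hh α (ww α ρ₂ m₁ S₁ t) - 1) / ta α t) = _
  have h1 := hh_lt_one hα (ww α ρ₂ m₁ S₁ t)
  have h2 : 1 - hh α (ww α ρ₂ m₁ S₁ t) ≠ 0 := by linarith
  have h3 : hh α (ww α ρ₂ m₁ S₁ t) - 1 ≠ 0 := by linarith
  have := hta.ne'
  have := hat.ne'
  rw [div_div_div_eq, div_eq_div_iff (by positivity) (by positivity)]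
  ring

lemma hasDerivAt_DD (hα : 1 < α) (hm : 0 < m₁) {t : ℝ} (ht : 0 < t)
    (hS : HasDerivAt S₁ (mass₁ α ρ₁ S₁ t * ((uout α ρ₂ m₁ t (S₁ t) ^ α - uin α t ^ α)
      / (uout α ρ₂ m₁ t (S₁ t) - uin α t))) t) :
    HasDerivAt (DD α ρ₁ ρ₂ m₁ S₁)
      (-(hh α (ww α ρ₂ m₁ S₁ t) ^ α / (α * t)) * DD α ρ₁ ρ₂ m₁ S₁ t) t := by
  have hta := ta_pos hα ht
  have hat : 0 < α * t := mul_pos (by linarith) ht
  rw [rh₁_eq hα hm ht] at hS
  have h1 := hasDerivAt_mass (ρ₁ := ρ₁) hα ht hS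
  have h2 := ((hasDerivAt_kk hα _).comp t (hasDerivAt_ww (ρ₂ := ρ₂) hα hm ht hS)).const_mul m₁
  have h3 := h1.sub h2
  have hk := hk' hα (ww α ρ₂ m₁ S₁ t)
  have hne : 1 - hh α (ww α ρ₂ m₁ S₁ t) ≠ 0 := by linarith [hh_lt_one hα (ww α ρ₂ m₁ S₁ t)]
  have e : mass₁ α ρ₁ S₁ t * (ta α t * (1 - hh α (ww α ρ₂ m₁ S₁ t) ^ α)
        / ((1 - hh α (ww α ρ₂ m₁ S₁ t)) * (α * t))) / ta α t - mass₁ α ρ₁ S₁ t / (α * t)
      - m₁ * (hh α (ww α ρ₂ m₁ S₁ t) * (mass₁ α ρ₁ S₁ t * (ta α t * (1 - hh α (ww α ρ₂ m₁ S₁ t) ^ α)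
        / ((1 - hh α (ww α ρ₂ m₁ S₁ t)) * (α * t))) / (m₁ * ta α t) - ww α ρ₂ m₁ S₁ t / (α * t)))
      = -(hh α (ww α ρ₂ m₁ S₁ t) ^ α / (α * t)) * DD α ρ₁ ρ₂ m₁ S₁ t := by
    rw [DD]
    set h := hh α (ww α ρ₂ m₁ S₁ t)
    set w := ww α ρ₂ m₁ S₁ t
    set k := kk α w
    set L := mass₁ α ρ₁ S₁ t
    have := hta.ne'
    have := hat.ne'
    have := hm.ne'
    field_simp
    linear_combination (-m₁ * (1 - h)) * hk
  rw [e] at h3
  exact h3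

lemma kk_of_nonpos (hα : 1 < α) {w : ℝ} (hw : w ≤ 0) : kk α w = 1 := by
  rw [kk, zp_of_nonpos (by linarith [pp_gt hα]) hw, add_zero, Real.one_rpow]

lemma kk_max (α : ℝ) {a b : ℝ} (hb : 0 < b) : kk α ((max a ρ₂ - ρ₂) / b) = kk α ((a - ρ₂) / b) := by
  have : zp (pp α) ((max a ρ₂ - ρ₂) / b) = zp (pp α) ((a - ρ₂) / b) := by
    unfold zp
    congr 1
    rcases le_total a ρ₂ with h | h
    · rw [max_eq_right h, sub_self, zero_div, max_self,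
        max_eq_right (div_nonpos_of_nonpos_of_nonneg (by linarith) hb.le)]
    · rw [max_eq_left h]
  rw [kk, this, kk]

/-- the mass inside the outer shock -/
lemma mass₂_eq (hα : 1 < α) (hm : 0 < m₁) {t : ℝ} (ht : 0 < t) (h12 : S₁ t < S₂ t) (h2 : ρ₂ < S₂ t) :
    mass₂ α ρ₁ ρ₂ m₁ S₁ S₂ t = DD α ρ₁ ρ₂ m₁ S₁ t + m₁ * kk α (ww α ρ₂ m₁ S₂ t) := by
  rw [mass₂, integral_fan hα hm ht (le_max_right _ _) (max_le h12.le h2.le),
    kk_max α (mul_pos hm (ta_pos hα ht)), DD]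
  simp only [ww]
  ring

lemma hasDerivAt_ww₂ (hα : 1 < α) (hm : 0 < m₁) {t : ℝ} (ht : 0 < t) (h12 : S₁ t < S₂ t)
    (h2 : ρ₂ < S₂ t) (hD : DD α ρ₁ ρ₂ m₁ S₁ t = 0)
    (hS : HasDerivAt S₂ (mass₂ α ρ₁ ρ₂ m₁ S₁ S₂ t * ((0 ^ α - fan α ρ₂ m₁ t (S₂ t) ^ α)
      / (0 - fan α ρ₂ m₁ t (S₂ t)))) t) :
    HasDerivAt (ww α ρ₂ m₁ S₂) 0 t := by
  have hta := ta_pos hα ht
  have hat : 0 < α * t := mul_pos (by linarith) ht
  have hw : 0 < ww α ρ₂ m₁ S₂ t := div_pos (by linarith) (mul_pos hm hta)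
  have hh0 : 0 < hh α (ww α ρ₂ m₁ S₂ t) := by
    rw [hh, zp_of_pos hw]
    exact mul_pos (Real.rpow_pos_of_pos hw _) (Real.rpow_pos_of_pos (one_add_zp_pos _ _) _)
  rw [mass₂_eq hα hm ht h12 h2, hD, zero_add, fan_eq hα hm ht h2,
    Real.zero_rpow (by linarith), Real.div_rpow (hh_nonneg _ _) hta.le, ta_rpow hα ht] at hS
  have h1 := hasDerivAt_ww (ρ₂ := ρ₂) hα hm ht hS
  have hk := hk' hα (ww α ρ₂ m₁ S₂ t)
  convert h1 using 1
  change (0 : ℝ) = m₁ * kk α (ww α ρ₂ m₁ S₂ t) * ((0 - hh α (ww α ρ₂ m₁ S₂ t) ^ α / (α * t))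
    / (0 - hh α (ww α ρ₂ m₁ S₂ t) / ta α t)) / (m₁ * ta α t) - ww α ρ₂ m₁ S₂ t / (α * t)
  set h := hh α (ww α ρ₂ m₁ S₂ t)
  set w := ww α ρ₂ m₁ S₂ t
  set k := kk α w
  have := hta.ne'
  have := hat.ne'
  have := hm.ne'
  have e1 : m₁ * k * ((0 - h ^ α / (α * t)) / (0 - h / ta α t)) / (m₁ * ta α t)
      = (h ^ α * k) / (h * (α * t)) := by
    rw [zero_sub, zero_sub, neg_div_neg_eq]
    field_simp
  rw [e1, hk]
  field_simp
  ring

/-- **The mass balance.** -/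
lemma balance (hα : 1 < α) (hm : 0 < m₁) (h : TwoBump α ρ₁ ρ₂ m₁ m₂ S₁ S₂) {a : ℝ} (ha : 0 < a)
    (hA : ∀ s, 0 < s → s ≤ a → S₁ s < S₂ s) :
    DD α ρ₁ ρ₂ m₁ S₁ a = 0 ∧ m₁ * kk α (ww α ρ₂ m₁ S₂ a) = m₁ + m₂ := by
  obtain ⟨t₀, ht₀, hsmall⟩ := h.small
  have hD0 : ∀ t, 0 < t → t ≤ t₀ → DD α ρ₁ ρ₂ m₁ S₁ t = 0 := by
    intro t ht ht'
    obtain ⟨_, h1, h2, _⟩ := hsmall t ht ht'
    have h3 : ww α ρ₂ m₁ S₁ t ≤ 0 :=
      div_nonpos_of_nonpos_of_nonneg (by linarith) (mul_pos hm (ta_pos hα ht)).le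
    rw [DD, h2, kk_of_nonpos hα h3]
    ring
  have hW0 : ∀ t, 0 < t → t ≤ t₀ → m₁ * kk α (ww α ρ₂ m₁ S₂ t) = m₁ + m₂ := by
    intro t ht ht'
    obtain ⟨_, _, _, h1⟩ := hsmall t ht ht'
    rw [integral_fan hα hm ht le_rfl (h.edge t ht).le, sub_self, zero_div,
      kk_of_nonpos hα le_rfl] at h1
    rw [ww]
    linarith
  have hDall : ∀ b, 0 < b → b ≤ a → DD α ρ₁ ρ₂ m₁ S₁ b = 0 := by
    intro b hb hba
    by_cases hbt : b ≤ t₀
    · exact hD0 b hb hbt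
    push Not at hbt
    have hder : ∀ t ∈ Icc t₀ b, HasDerivAt (fun t => DD α ρ₁ ρ₂ m₁ S₁ t ^ 2)
        (2 * DD α ρ₁ ρ₂ m₁ S₁ t * (-(hh α (ww α ρ₂ m₁ S₁ t) ^ α / (α * t)) * DD α ρ₁ ρ₂ m₁ S₁ t)) t := by
      intro t ht
      have ht0 : 0 < t := lt_of_lt_of_le ht₀ ht.1
      have h1 := hasDerivAt_DD hα hm ht0 (h.rh₁ t ht0 fun s hs hst => hA s hs (hst.trans (ht.2.trans hba)))
      have h2 := h1.fun_pow 2
      have e : ((2 : ℕ) : ℝ) * DD α ρ₁ ρ₂ m₁ S₁ t ^ (2 - 1)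
          * (-(hh α (ww α ρ₂ m₁ S₁ t) ^ α / (α * t)) * DD α ρ₁ ρ₂ m₁ S₁ t)
          = 2 * DD α ρ₁ ρ₂ m₁ S₁ t * (-(hh α (ww α ρ₂ m₁ S₁ t) ^ α / (α * t)) * DD α ρ₁ ρ₂ m₁ S₁ t) := by
        norm_num
      rw [e] at h2
      exact h2
    have hanti : AntitoneOn (fun t => DD α ρ₁ ρ₂ m₁ S₁ t ^ 2) (Icc t₀ b) := by
      refine antitoneOn_of_deriv_nonpos (convex_Icc _ _)
        (fun t ht => (hder t ht).continuousAt.continuousWithinAt)
        (fun t ht => (hder t (interior_subset ht)).differentiableAt.differentiableWithinAt) fun t ht => ?_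
      have ht' := interior_subset ht
      rw [(hder t ht').deriv]
      have ht0 : 0 < t := lt_of_lt_of_le ht₀ ht'.1
      have h1 : 0 ≤ hh α (ww α ρ₂ m₁ S₁ t) ^ α / (α * t) :=
        div_nonneg (Real.rpow_nonneg (hh_nonneg _ _) _) (mul_pos (by linarith) ht0).le
      have h2 := mul_nonneg h1 (sq_nonneg (DD α ρ₁ ρ₂ m₁ S₁ t))
      nlinarith
    have h1 := hanti (left_mem_Icc.2 hbt.le) (right_mem_Icc.2 hbt.le) hbt.le
    simp only [hD0 t₀ ht₀ le_rfl] at h1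
    have h2 : DD α ρ₁ ρ₂ m₁ S₁ b ^ 2 = 0 := le_antisymm (by simpa using h1) (sq_nonneg _)
    exact pow_eq_zero_iff (two_ne_zero) |>.1 h2
  refine ⟨hDall a ha le_rfl, ?_⟩
  by_cases hat : a ≤ t₀
  · exact hW0 a ha hat
  push Not at hat
  have hder : ∀ t ∈ Icc t₀ a, HasDerivAt (ww α ρ₂ m₁ S₂) 0 t := by
    intro t ht
    have ht0 : 0 < t := lt_of_lt_of_le ht₀ ht.1
    exact hasDerivAt_ww₂ hα hm ht0 (hA t ht0 ht.2) (h.edge t ht0) (hDall t ht0 ht.2)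
      (h.rh₂ t ht0 fun s hs hst => hA s hs (hst.trans ht.2))
  have h1 := constant_of_has_deriv_right_zero (f := ww α ρ₂ m₁ S₂) (a := t₀) (b := a)
    (fun t ht => (hder t ht).continuousAt.continuousWithinAt)
    (fun t ht => (hder t (Ico_subset_Icc_self ht)).hasDerivWithinAt) a (right_mem_Icc.2 hat.le)
  rw [h1]
  exact hW0 t₀ ht₀ le_rfl

/-- the time of the first meeting in the scale `ta` -/
def tauT (α ρ₁ ρ₂ m₁ m₂ : ℝ) : ℝ :=
  (ρ₂ - ρ₁) / (m₁ + m₂ - ((m₁ + m₂) ^ (α / (α - 1)) - m₁ ^ (α / (α - 1))) ^ ((α - 1) / α))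

/-- the position of the outer shock -/
lemma ww₂_eq (hα : 1 < α) (hm : 0 < m₁) (hm2 : 0 < m₂) {w : ℝ} (hw : 0 < w)
    (h : m₁ * kk α w = m₁ + m₂) :
    m₁ * w = ((m₁ + m₂) ^ pp α - m₁ ^ pp α) ^ (1 / pp α) := by
  have hp := pp_gt hα
  have h1 : kk α w = (m₁ + m₂) / m₁ := by rw [eq_div_iff hm.ne', mul_comm]; exact h
  have h2 : 1 + w ^ pp α = ((m₁ + m₂) / m₁) ^ pp α := by
    rw [← h1, kk, zp_of_pos hw, ← Real.rpow_mul (by linarith [Real.rpow_pos_of_pos hw (pp α)]),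
      one_div_mul_cancel (by linarith), Real.rpow_one]
  have h3 : (m₁ * w) ^ pp α = (m₁ + m₂) ^ pp α - m₁ ^ pp α := by
    rw [Real.mul_rpow hm.le hw.le]
    have : w ^ pp α = ((m₁ + m₂) / m₁) ^ pp α - 1 := by linarith
    rw [this, Real.div_rpow (by linarith) hm.le, mul_sub, mul_one, mul_div_cancel₀]
    exact (Real.rpow_pos_of_pos hm _).ne'
  rw [← h3, ← Real.rpow_mul (mul_pos hm hw).le, mul_one_div_cancel (by linarith), Real.rpow_one]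

lemma denom_pos (hα : 1 < α) (hm : 0 < m₁) (hm2 : 0 < m₂) :
    0 < m₁ + m₂ - ((m₁ + m₂) ^ pp α - m₁ ^ pp α) ^ (1 / pp α) := by
  have hp := pp_gt hα
  have hM : 0 < m₁ + m₂ := by linarith
  have h1 : (m₁ + m₂) ^ pp α - m₁ ^ pp α < (m₁ + m₂) ^ pp α := by
    linarith [Real.rpow_pos_of_pos hm (pp α)]
  have h0 : 0 ≤ (m₁ + m₂) ^ pp α - m₁ ^ pp α := by
    have := Real.rpow_le_rpow hm.le (by linarith : m₁ ≤ m₁ + m₂) (by linarith : 0 ≤ pp α)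
    linarith
  have h2 := Real.rpow_lt_rpow h0 h1 (by positivity : 0 < 1 / pp α)
  rw [← Real.rpow_mul hM.le, mul_one_div_cancel (by linarith), Real.rpow_one] at h2
  linarith

lemma tauT_eq : tauT α ρ₁ ρ₂ m₁ m₂ =
    (ρ₂ - ρ₁) / (m₁ + m₂ - ((m₁ + m₂) ^ pp α - m₁ ^ pp α) ^ (1 / pp α)) := by
  rw [tauT, pp, one_div_div]

lemma tauT_pos (hα : 1 < α) (hm : 0 < m₁) (hm2 : 0 < m₂) (hρ : ρ₁ < ρ₂) :
    0 < tauT α ρ₁ ρ₂ m₁ m₂ := by
  rw [tauT_eq]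
  exact div_pos (by linarith) (denom_pos hα hm hm2)

lemma mergeTime_pos (hα : 1 < α) (hm : 0 < m₁) (hm2 : 0 < m₂) (hρ : ρ₁ < ρ₂) :
    0 < mergeTime α ρ₁ ρ₂ m₁ m₂ :=
  div_pos (Real.rpow_pos_of_pos (tauT_pos hα hm hm2 hρ) _) (by linarith)

lemma ta_mergeTime (hα : 1 < α) (hm : 0 < m₁) (hm2 : 0 < m₂) (hρ : ρ₁ < ρ₂) :
    ta α (mergeTime α ρ₁ ρ₂ m₁ m₂) = tauT α ρ₁ ρ₂ m₁ m₂ := by
  have h := tauT_pos hα hm hm2 hρ
  rw [ta, mergeTime, mul_div_cancel₀ _ (by linarith : α ≠ 0)]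
  change (tauT α ρ₁ ρ₂ m₁ m₂ ^ α) ^ (1 / α) = _
  rw [← Real.rpow_mul h.le, mul_one_div_cancel (by linarith), Real.rpow_one]

lemma ta_strictMono (hα : 1 < α) {s t : ℝ} (hs : 0 < s) (hst : s < t) : ta α s < ta α t :=
  Real.rpow_lt_rpow (mul_pos (by linarith) hs).le (mul_lt_mul_of_pos_left hst (by linarith))
    (by positivity)

lemma lt_of_ta_lt (hα : 1 < α) {s t : ℝ} (ht : 0 < t) (h : ta α s < ta α t) (_hs : 0 < s) : s < t := by
  by_contra hcon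
  push Not at hcon
  rcases hcon.lt_or_eq with h1 | h1
  · exact absurd (ta_strictMono hα ht h1) (not_lt.2 h.le)
  · rw [h1] at h; exact lt_irrefl _ h

lemma G_eq (hα : 1 < α) (hm : 0 < m₁) {t : ℝ} (ht : 0 < t) (hD : DD α ρ₁ ρ₂ m₁ S₁ t = 0) :
    kk α (ww α ρ₂ m₁ S₁ t) - ww α ρ₂ m₁ S₁ t = (ρ₂ - ρ₁) / (m₁ * ta α t) := by
  have hta := (ta_pos hα ht).ne'
  rw [DD, mass₁_eq hα ht, sub_eq_zero] at hD
  have h1 : kk α (ww α ρ₂ m₁ S₁ t) = (S₁ t - ρ₁) / (m₁ * ta α t) := by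
    rw [mul_comm m₁ (ta α t), ← div_div, hD, mul_div_cancel_left₀ _ hm.ne']
  rw [h1, ww, ← sub_div]
  congr 1
  ring

lemma G_W (hα : 1 < α) (hm : 0 < m₁) (hm2 : 0 < m₂) (hρ : ρ₁ < ρ₂) {w : ℝ} (hw : 0 < w)
    (h : m₁ * kk α w = m₁ + m₂) :
    kk α w - w = (ρ₂ - ρ₁) / (m₁ * tauT α ρ₁ ρ₂ m₁ m₂) := by
  have h1 := ww₂_eq hα hm hm2 hw h
  have h2 : m₁ * (kk α w - w) = m₁ + m₂ - ((m₁ + m₂) ^ pp α - m₁ ^ pp α) ^ (1 / pp α) := by
    rw [mul_sub, h, h1]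
  have h3 := denom_pos hα hm hm2
  rw [eq_div_iff (mul_pos hm (tauT_pos hα hm hm2 hρ)).ne', ← mul_assoc, mul_comm (kk α w - w) m₁, h2,
    tauT_eq, mul_div_cancel₀ _ h3.ne']

lemma eq_of_left {f : ℝ → ℝ} {t c : ℝ} (hf : ContinuousAt f t) (ht : 0 < t)
    (h : ∀ s, 0 < s → s < t → f s = c) : f t = c := by
  have h1 : Tendsto f (𝓝[<] t) (𝓝 (f t)) := hf.mono_left nhdsWithin_le_nhds
  have h2 : Tendsto f (𝓝[<] t) (𝓝 c) := by
    refine tendsto_const_nhds.congr' ?_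
    filter_upwards [Ioo_mem_nhdsLT ht] with s hs
    exact (h s hs.1 hs.2).symm
  exact tendsto_nhds_unique h1 h2

lemma le_of_left {f g : ℝ → ℝ} {t : ℝ} (hf : ContinuousAt f t) (hg : ContinuousAt g t) (ht : 0 < t)
    (h : ∀ s, 0 < s → s < t → f s < g s) : f t ≤ g t := by
  have h1 : Tendsto f (𝓝[<] t) (𝓝 (f t)) := hf.mono_left nhdsWithin_le_nhds
  have h2 : Tendsto g (𝓝[<] t) (𝓝 (g t)) := hg.mono_left nhdsWithin_le_nhds
  refine le_of_tendsto_of_tendsto h1 h2 ?_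
  filter_upwards [Ioo_mem_nhdsLT ht] with s hs
  exact (h s hs.1 hs.2).le

/-- **The shocks meet exactly at the time `mergeTime`.** -/
theorem merge (hα : 1 < α) (hm : 0 < m₁) (hm2 : 0 < m₂) (hρ : ρ₁ < ρ₂)
    (h : TwoBump α ρ₁ ρ₂ m₁ m₂ S₁ S₂) :
    (∀ t, 0 < t → t < mergeTime α ρ₁ ρ₂ m₁ m₂ → S₁ t < S₂ t) ∧
      S₁ (mergeTime α ρ₁ ρ₂ m₁ m₂) = S₂ (mergeTime α ρ₁ ρ₂ m₁ m₂) := by
  set T := mergeTime α ρ₁ ρ₂ m₁ m₂ with hT
  have hT0 : 0 < T := mergeTime_pos hα hm hm2 hρ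
  have htaT : ta α T = tauT α ρ₁ ρ₂ m₁ m₂ := ta_mergeTime hα hm hm2 hρ
  have hτ0 := tauT_pos hα hm hm2 hρ (m₂ := m₂)
  have hwpos : ∀ t, 0 < t → 0 < ww α ρ₂ m₁ S₂ t := fun t ht =>
    div_pos (by linarith [h.edge t ht]) (mul_pos hm (ta_pos hα ht))
  have hww : ∀ t, 0 < t → S₁ t < S₂ t → ww α ρ₂ m₁ S₁ t < ww α ρ₂ m₁ S₂ t := fun t ht h12 =>
    div_lt_div_of_pos_right (by linarith) (mul_pos hm (ta_pos hα ht))
  -- as long as the shocks have not met, the time is smaller than `T`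
  have hlt : ∀ a, 0 < a → (∀ s, 0 < s → s ≤ a → S₁ s < S₂ s) → a < T := by
    intro a ha hA
    obtain ⟨hD, hW⟩ := balance hα hm h ha hA
    have h1 := G_eq hα hm ha hD
    have h2 := G_W hα hm hm2 hρ (hwpos a ha) hW
    have h3 := strictAnti_G hα (hww a ha (hA a ha le_rfl))
    simp only at h3
    rw [h1, h2] at h3
    have h4 : m₁ * ta α a < m₁ * tauT α ρ₁ ρ₂ m₁ m₂ := by
      by_contra hcon
      push Not at hcon
      have := div_le_div_of_nonneg_left (by linarith : 0 ≤ ρ₂ - ρ₁) (mul_pos hm hτ0) hcon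
      linarith
    have h5 : ta α a < ta α T := by rw [htaT]; exact lt_of_mul_lt_mul_left h4 hm.le
    exact lt_of_ta_lt hα hT0 h5 ha
  obtain ⟨t₀, ht₀, hsmall⟩ := h.small
  have hsm : ∀ t, 0 < t → t ≤ t₀ → S₁ t < S₂ t := fun t ht ht' => by
    have := (hsmall t ht ht').2.1
    linarith [h.edge t ht]
  -- the set of the meeting times
  have hex : ∃ t, 0 < t ∧ t ≤ T ∧ S₂ t ≤ S₁ t := by
    by_contra hcon
    push Not at hcon
    exact lt_irrefl _ (hlt T hT0 hcon)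
  obtain ⟨t₁, ht₁, ht₁T, ht₁S⟩ := hex
  have ht₀₁ : t₀ ≤ t₁ := by
    by_contra hcon
    push Not at hcon
    exact absurd (hsm t₁ ht₁ hcon.le) (not_lt.2 ht₁S)
  set C : Set ℝ := {t | t ∈ Icc t₀ T ∧ S₂ t ≤ S₁ t} with hC
  have hsub : Icc t₀ T ⊆ Ioi 0 := fun t ht => lt_of_lt_of_le ht₀ ht.1
  have hCcl : IsClosed C :=
    isClosed_Icc.isClosed_le (h.cont₂.mono hsub) (h.cont₁.mono hsub)
  have hCne : C.Nonempty := ⟨t₁, ⟨ht₀₁, ht₁T⟩, ht₁S⟩
  have hCbd : BddBelow C := ⟨t₀, fun t ht => ht.1.1⟩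
  set t := sInf C with ht
  have htC : t ∈ C := hCcl.csInf_mem hCne hCbd
  have ht0 : 0 < t := hsub htC.1
  have hbefore : ∀ s, 0 < s → s < t → S₁ s < S₂ s := by
    intro s hs hst
    by_cases hs0 : s ≤ t₀
    · exact hsm s hs hs0
    · push Not at hs0
      by_contra hcon
      push Not at hcon
      have : s ∈ C := ⟨⟨hs0.le, (hst.trans_le htC.1.2).le⟩, hcon⟩
      exact absurd (csInf_le hCbd this) (not_le.2 hst)
  have hc₁ : ContinuousAt S₁ t := h.cont₁.continuousAt (Ioi_mem_nhds ht0)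
  have hc₂ : ContinuousAt S₂ t := h.cont₂.continuousAt (Ioi_mem_nhds ht0)
  have hcta : ContinuousAt (ta α) t := (hasDerivAt_ta hα ht0).continuousAt
  have heq : S₁ t = S₂ t := le_antisymm (le_of_left hc₁ hc₂ ht0 hbefore) htC.2
  have hta0 := ta_pos hα ht0
  have hcw : ∀ {S : ℝ → ℝ}, ContinuousAt S t → ContinuousAt (ww α ρ₂ m₁ S) t := fun hS =>
    (hS.sub continuousAt_const).div (continuousAt_const.mul hcta) (mul_pos hm hta0).ne'
  have hcD : ContinuousAt (fun s => (S₁ s - ρ₁) / ta α s - m₁ * kk α (ww α ρ₂ m₁ S₁ s)) t :=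
    ((hc₁.sub continuousAt_const).div hcta hta0.ne').sub
      (continuousAt_const.mul ((continuous_kk hα).continuousAt.comp (hcw hc₁)))
  have hcW : ContinuousAt (fun s => m₁ * kk α (ww α ρ₂ m₁ S₂ s)) t :=
    continuousAt_const.mul ((continuous_kk hα).continuousAt.comp (hcw hc₂))
  have hbal : ∀ s, 0 < s → s < t → DD α ρ₁ ρ₂ m₁ S₁ s = 0 ∧
      m₁ * kk α (ww α ρ₂ m₁ S₂ s) = m₁ + m₂ := fun s hs hst =>
    balance hα hm h hs fun r hr hrs => hbefore r hr (hrs.trans_lt hst)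
  have hD : DD α ρ₁ ρ₂ m₁ S₁ t = 0 := by
    rw [DD, mass₁_eq hα ht0]
    refine eq_of_left (f := fun s => (S₁ s - ρ₁) / ta α s - m₁ * kk α (ww α ρ₂ m₁ S₁ s)) hcD ht0
      fun s hs hst => ?_
    have := (hbal s hs hst).1
    rwa [DD, mass₁_eq hα hs] at this
  have hW : m₁ * kk α (ww α ρ₂ m₁ S₂ t) = m₁ + m₂ :=
    eq_of_left (f := fun s => m₁ * kk α (ww α ρ₂ m₁ S₂ s)) hcW ht0 fun s hs hst => (hbal s hs hst).2
  have h1 := G_eq hα hm ht0 hD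
  have h2 := G_W hα hm hm2 hρ (hwpos t ht0) hW
  have hww' : ww α ρ₂ m₁ S₁ t = ww α ρ₂ m₁ S₂ t := by rw [ww, ww, heq]
  rw [hww', h2] at h1
  have h3 : ta α t = tauT α ρ₁ ρ₂ m₁ m₂ := by
    have hρ0 : ρ₂ - ρ₁ ≠ 0 := by linarith
    rw [div_eq_div_iff (mul_pos hm hτ0).ne' (mul_pos hm hta0).ne'] at h1
    have h4 := mul_left_cancel₀ hρ0 h1
    exact mul_left_cancel₀ hm.ne' h4
  have htT : t = T := by
    rw [← htaT] at h3
    rcases lt_trichotomy t T with h4 | h4 | h4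
    · exact absurd h3 (ta_strictMono hα ht0 h4).ne
    · exact h4
    · exact absurd h3.symm (ta_strictMono hα hT0 h4).ne
  rw [← htT]
  exact ⟨hbefore, heq⟩

/-! ### Existence of the shocks -/

/-- the function `G(w) = k(w) - w` -/
def GG (α w : ℝ) : ℝ := kk α w - w

lemma hasDerivAt_GG (hα : 1 < α) (w : ℝ) : HasDerivAt (GG α) (hh α w - 1) w :=
  (hasDerivAt_kk hα w).sub (hasDerivAt_id w)

lemma GG_injective (hα : 1 < α) : Function.Injective (GG α) := (strictAnti_G hα).injective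

lemma GG_of_nonpos (hα : 1 < α) {w : ℝ} (hw : w ≤ 0) : GG α w = 1 - w := by
  rw [GG, kk_of_nonpos hα hw]

lemma GG_le (hα : 1 < α) {w : ℝ} (hw : 0 < w) : GG α w ≤ w ^ (-(pp α - 1)) := by
  have hp := pp_gt hα
  have hwp : 0 < w ^ pp α := Real.rpow_pos_of_pos hw _
  have hwn : 0 < w ^ (-pp α) := Real.rpow_pos_of_pos hw _
  have e : 1 + w ^ pp α = w ^ pp α * (1 + w ^ (-pp α)) := by
    rw [mul_add, mul_one, ← Real.rpow_add hw, add_neg_cancel, Real.rpow_zero, add_comm]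
  have h1 : kk α w = w * (1 + w ^ (-pp α)) ^ (1 / pp α) := by
    rw [kk, zp_of_pos hw, e, Real.mul_rpow hwp.le (by linarith), ← Real.rpow_mul hw.le,
      mul_one_div_cancel (by linarith), Real.rpow_one]
  have h2 : (1 + w ^ (-pp α)) ^ (1 / pp α) ≤ 1 + 1 / pp α * w ^ (-pp α) :=
    rpow_one_add_le_one_add_mul_self (by linarith) (by positivity)
      (by rw [div_le_one (by linarith)]; linarith)
  have h3 : 1 / pp α * w ^ (-pp α) ≤ w ^ (-pp α) := by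
    have : 1 / pp α ≤ 1 := by rw [div_le_one (by linarith)]; linarith
    nlinarith
  have h4 : w ^ (-(pp α - 1)) = w * w ^ (-pp α) := by
    rw [show -(pp α - 1) = -pp α + 1 by ring, Real.rpow_add_one hw.ne']
    ring
  have h5 := mul_le_mul_of_nonneg_left (h2.trans (add_le_add_right h3 1)) hw.le
  rw [GG, h1, h4]
  linarith

lemma exists_GG (hα : 1 < α) {y : ℝ} (hy : 0 < y) : ∃ w, GG α w = y := by
  have hp := pp_gt hα
  have hc : Continuous (GG α) := continuous_iff_continuousAt.2 fun w => (hasDerivAt_GG hα w).continuousAt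
  have h1 : ∃ w, GG α w ≤ y := by
    have h2 := tendsto_rpow_neg_atTop (show 0 < pp α - 1 by linarith)
    obtain ⟨w, hw1, hw2⟩ := ((h2.eventually (gt_mem_nhds hy)).and (eventually_gt_atTop 0)).exists
    exact ⟨w, (GG_le hα hw2).trans hw1.le⟩
  have h2 : ∃ w, y ≤ GG α w := ⟨-y, by rw [GG_of_nonpos hα (by linarith)]; linarith⟩
  exact mem_range_of_exists_le_of_exists_ge hc h1 h2

/-- the inverse of `G` -/
def Gi (α : ℝ) : ℝ → ℝ := Function.invFun (GG α)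

lemma Gi_left (hα : 1 < α) (w : ℝ) : Gi α (GG α w) = w :=
  Function.leftInverse_invFun (GG_injective hα) w

lemma Gi_right (hα : 1 < α) {y : ℝ} (hy : 0 < y) : GG α (Gi α y) = y :=
  Function.invFun_eq (exists_GG hα hy)

lemma hasDerivAt_Gi (hα : 1 < α) {y : ℝ} (hy : 0 < y) :
    HasDerivAt (Gi α) (hh α (Gi α y) - 1)⁻¹ y := by
  have h1 : HasStrictDerivAt (GG α) (hh α (Gi α y) - 1) (Gi α y) :=
    hasStrictDerivAt_of_hasDerivAt_of_continuousAt (f' := fun w => hh α w - 1)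
      (Eventually.of_forall fun w => hasDerivAt_GG hα w)
      ((continuous_hh hα).sub continuous_const).continuousAt
  have h2 := h1.to_local_left_inverse (by linarith [hh_lt_one hα (Gi α y)])
    (Eventually.of_forall fun w => Gi_left hα w)
  rw [Gi_right hα hy] at h2
  exact h2.hasDerivAt

/-- the self-similar position of the outer shock -/
def WW (α m₁ m₂ : ℝ) : ℝ := (((m₁ + m₂) / m₁) ^ pp α - 1) ^ (1 / pp α)

lemma WW_pos (hα : 1 < α) (hm : 0 < m₁) (hm2 : 0 < m₂) : 0 < WW α m₁ m₂ := by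
  refine Real.rpow_pos_of_pos ?_ _
  have : 1 < ((m₁ + m₂) / m₁) ^ pp α :=
    Real.one_lt_rpow (by rw [lt_div_iff₀ hm]; linarith) (by linarith [pp_gt hα])
  linarith

lemma kk_WW (hα : 1 < α) (hm : 0 < m₁) (hm2 : 0 < m₂) : m₁ * kk α (WW α m₁ m₂) = m₁ + m₂ := by
  have hp := pp_gt hα
  have h1 : 1 < ((m₁ + m₂) / m₁) ^ pp α :=
    Real.one_lt_rpow (by rw [lt_div_iff₀ hm]; linarith) (by linarith)
  have h2 : 0 ≤ (m₁ + m₂) / m₁ := by positivity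
  rw [kk, zp_of_pos (WW_pos hα hm hm2), WW, ← Real.rpow_mul (by linarith),
    one_div_mul_cancel (by linarith), Real.rpow_one, add_sub_cancel, ← Real.rpow_mul h2,
    mul_one_div_cancel (by linarith), Real.rpow_one, mul_div_cancel₀ _ hm.ne']

/-- the inner shock -/
def inner (α ρ₁ ρ₂ m₁ t : ℝ) : ℝ :=
  ρ₂ + m₁ * ta α t * Gi α ((ρ₂ - ρ₁) / (m₁ * ta α t))

/-- the outer shock -/
def outer (α ρ₂ m₁ m₂ t : ℝ) : ℝ := ρ₂ + m₁ * ta α t * WW α m₁ m₂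

lemma ww_inner (hα : 1 < α) (hm : 0 < m₁) {t : ℝ} (ht : 0 < t) :
    ww α ρ₂ m₁ (inner α ρ₁ ρ₂ m₁) t = Gi α ((ρ₂ - ρ₁) / (m₁ * ta α t)) := by
  rw [ww, inner, add_sub_cancel_left, mul_div_cancel_left₀ _ (mul_pos hm (ta_pos hα ht)).ne']

lemma ww_outer (hα : 1 < α) (hm : 0 < m₁) {t : ℝ} (ht : 0 < t) :
    ww α ρ₂ m₁ (outer α ρ₂ m₁ m₂) t = WW α m₁ m₂ := by
  rw [ww, outer, add_sub_cancel_left, mul_div_cancel_left₀ _ (mul_pos hm (ta_pos hα ht)).ne']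

lemma mass_inner (hα : 1 < α) (hm : 0 < m₁) (hρ : ρ₁ < ρ₂) {t : ℝ} (ht : 0 < t) :
    mass₁ α ρ₁ (inner α ρ₁ ρ₂ m₁) t = m₁ * kk α (Gi α ((ρ₂ - ρ₁) / (m₁ * ta α t))) := by
  have hta := ta_pos hα ht
  have h1 := Gi_right hα (div_pos (by linarith : 0 < ρ₂ - ρ₁) (mul_pos hm hta))
  rw [GG] at h1
  have h2 : kk α (Gi α ((ρ₂ - ρ₁) / (m₁ * ta α t)))
      = (ρ₂ - ρ₁) / (m₁ * ta α t) + Gi α ((ρ₂ - ρ₁) / (m₁ * ta α t)) := by linarith
  rw [h2, mass₁_eq hα ht, inner]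
  have := hta.ne'
  have := hm.ne'
  field_simp
  ring

lemma DD_inner (hα : 1 < α) (hm : 0 < m₁) (hρ : ρ₁ < ρ₂) {t : ℝ} (ht : 0 < t) :
    DD α ρ₁ ρ₂ m₁ (inner α ρ₁ ρ₂ m₁) t = 0 := by
  rw [DD, mass_inner hα hm hρ ht, ww_inner hα hm ht, sub_self]

lemma hasDerivAt_inner (hα : 1 < α) (hm : 0 < m₁) (hρ : ρ₁ < ρ₂) {t : ℝ} (ht : 0 < t) :
    HasDerivAt (inner α ρ₁ ρ₂ m₁) (mass₁ α ρ₁ (inner α ρ₁ ρ₂ m₁) t *
      ((uout α ρ₂ m₁ t (inner α ρ₁ ρ₂ m₁ t) ^ α - uin α t ^ α)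
      / (uout α ρ₂ m₁ t (inner α ρ₁ ρ₂ m₁ t) - uin α t))) t := by
  have hta := ta_pos hα ht
  have hat : 0 < α * t := mul_pos (by linarith) ht
  have hq : 0 < (ρ₂ - ρ₁) / (m₁ * ta α t) := div_pos (by linarith) (mul_pos hm hta)
  have h1 := (hasDerivAt_ta hα ht).const_mul m₁
  have h2 := (h1.inv (mul_pos hm hta).ne').const_mul (ρ₂ - ρ₁)
  have h3 : HasDerivAt (fun s => (ρ₂ - ρ₁) / (m₁ * ta α s))
      ((ρ₂ - ρ₁) * (-(m₁ * (ta α t / (α * t))) / (m₁ * ta α t) ^ 2)) t := h2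
  have h4 := (h1.mul ((hasDerivAt_Gi hα hq).comp t h3)).const_add ρ₂
  rw [rh₁_eq hα hm ht, mass_inner hα hm hρ ht, ww_inner hα hm ht]
  have hk := hk' hα (Gi α ((ρ₂ - ρ₁) / (m₁ * ta α t)))
  have hG := Gi_right hα hq
  rw [GG] at hG
  have hne := hh_lt_one hα (Gi α ((ρ₂ - ρ₁) / (m₁ * ta α t)))
  have e : m₁ * (ta α t / (α * t)) * (Gi α ∘ fun s => (ρ₂ - ρ₁) / (m₁ * ta α s)) t +
      m₁ * ta α t * ((hh α (Gi α ((ρ₂ - ρ₁) / (m₁ * ta α t))) - 1)⁻¹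
        * ((ρ₂ - ρ₁) * (-(m₁ * (ta α t / (α * t))) / (m₁ * ta α t) ^ 2)))
      = m₁ * kk α (Gi α ((ρ₂ - ρ₁) / (m₁ * ta α t)))
        * (ta α t * (1 - hh α (Gi α ((ρ₂ - ρ₁) / (m₁ * ta α t))) ^ α)
          / ((1 - hh α (Gi α ((ρ₂ - ρ₁) / (m₁ * ta α t)))) * (α * t))) := by
    have e0 : (Gi α ∘ fun s => (ρ₂ - ρ₁) / (m₁ * ta α s)) t = Gi α ((ρ₂ - ρ₁) / (m₁ * ta α t)) := rfl
    rw [e0]
    have e1 : (ρ₂ - ρ₁) * (-(m₁ * (ta α t / (α * t))) / (m₁ * ta α t) ^ 2)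
        = -((ρ₂ - ρ₁) / (m₁ * ta α t)) / (α * t) := by
      have := hta.ne'
      have := hm.ne'
      field_simp
    rw [e1]
    generalize (ρ₂ - ρ₁) / (m₁ * ta α t) = q at hG hk hne ⊢
    generalize Gi α q = w at hG hk hne ⊢
    rw [← hG]
    generalize kk α w = k at hG hk hne ⊢
    have hne1 : 1 - hh α w ≠ 0 := by linarith
    have hne2 : hh α w - 1 ≠ 0 := by linarith
    have e2 : (hh α w - 1)⁻¹ = -(1 / (1 - hh α w)) := by
      field_simp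
      ring
    rw [e2]
    have := hta.ne'
    have := hm.ne'
    have := hat.ne'
    field_simp
    linear_combination hk
  rw [← e]
  exact h4

/-- **The shocks of the two-bump solution exist.** -/
theorem exists_twoBump (hα : 1 < α) (hm : 0 < m₁) (hm2 : 0 < m₂) (hρ : ρ₁ < ρ₂) :
    TwoBump α ρ₁ ρ₂ m₁ m₂ (inner α ρ₁ ρ₂ m₁) (outer α ρ₂ m₁ m₂) := by
  have hα0 : 0 < α := by linarith
  have hW := WW_pos hα hm hm2
  have hkW := kk_WW hα hm hm2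
  have houter : ∀ t, 0 < t → HasDerivAt (outer α ρ₂ m₁ m₂) (m₁ * (ta α t / (α * t)) * WW α m₁ m₂) t :=
    fun t ht => (((hasDerivAt_ta hα ht).const_mul m₁).mul_const _).const_add ρ₂
  have hedge : ∀ t, 0 < t → ρ₂ < outer α ρ₂ m₁ m₂ t := fun t ht => by
    have := mul_pos (mul_pos hm (ta_pos hα ht)) hW
    rw [outer]
    linarith
  refine ⟨fun t ht => (hasDerivAt_inner hα hm hρ ht).continuousAt.continuousWithinAt,
    fun t ht => (houter t ht).continuousAt.continuousWithinAt, hedge, ?_, ?_, ?_⟩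
  · have hb : 0 < (ρ₂ - ρ₁) / (2 * m₁) := div_pos (by linarith) (by linarith)
    refine ⟨((ρ₂ - ρ₁) / (2 * m₁)) ^ α / α, div_pos (Real.rpow_pos_of_pos hb _) hα0, fun t ht htt => ?_⟩
    have hta := ta_pos hα ht
    have h1 : ta α t ≤ (ρ₂ - ρ₁) / (2 * m₁) := by
      have h2 : α * t ≤ ((ρ₂ - ρ₁) / (2 * m₁)) ^ α := by
        rw [le_div_iff₀ hα0] at htt
        linarith
      have h3 := Real.rpow_le_rpow (mul_pos hα0 ht).le h2 (by positivity : 0 ≤ 1 / α)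
      rw [← Real.rpow_mul hb.le, mul_one_div_cancel hα0.ne', Real.rpow_one] at h3
      exact h3
    have h2 : m₁ * ta α t ≤ (ρ₂ - ρ₁) / 2 := by
      rw [le_div_iff₀ (by linarith : 0 < 2 * m₁)] at h1
      linarith
    have h3 : Gi α ((ρ₂ - ρ₁) / (m₁ * ta α t)) = 1 - (ρ₂ - ρ₁) / (m₁ * ta α t) := by
      have h4 : 1 - (ρ₂ - ρ₁) / (m₁ * ta α t) ≤ 0 := by
        have : 1 ≤ (ρ₂ - ρ₁) / (m₁ * ta α t) := by
          rw [le_div_iff₀ (mul_pos hm hta)]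
          linarith
        linarith
      have h5 : GG α (1 - (ρ₂ - ρ₁) / (m₁ * ta α t)) = (ρ₂ - ρ₁) / (m₁ * ta α t) := by
        rw [GG_of_nonpos hα h4]
        ring
      have h6 := Gi_left hα (1 - (ρ₂ - ρ₁) / (m₁ * ta α t))
      rw [h5] at h6
      exact h6
    have h4 : inner α ρ₁ ρ₂ m₁ t = ρ₁ + m₁ * ta α t := by
      rw [inner, h3]
      have := hta.ne'
      have := hm.ne'
      field_simp
      ring
    have h5 := mul_pos hm hta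
    refine ⟨by rw [h4]; linarith, by rw [h4]; linarith, ?_, ?_⟩
    · rw [mass₁_eq hα ht, h4, add_sub_cancel_left, mul_div_cancel_right₀ _ hta.ne']
    · rw [integral_fan hα hm ht le_rfl (hedge t ht).le, sub_self, zero_div, kk_of_nonpos hα le_rfl]
      have := ww_outer (ρ₂ := ρ₂) (m₂ := m₂) hα hm ht
      rw [ww] at this
      rw [this, hkW]
      ring
  · intro t ht _
    exact hasDerivAt_inner hα hm hρ ht
  · intro t ht hA
    have hta := ta_pos hα ht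
    have hat : 0 < α * t := mul_pos hα0 ht
    have hww := ww_outer (ρ₂ := ρ₂) (m₂ := m₂) hα hm ht
    have h1 := houter t ht
    have hk := hk' hα (WW α m₁ m₂)
    have hh0 : 0 < hh α (WW α m₁ m₂) := by
      rw [hh, zp_of_pos hW]
      exact mul_pos (Real.rpow_pos_of_pos hW _) (Real.rpow_pos_of_pos (one_add_zp_pos _ _) _)
    have hww2 := hww
    rw [ww] at hww2
    rw [mass₂_eq hα hm ht (hA t ht le_rfl) (hedge t ht), DD_inner hα hm hρ ht, zero_add, hww,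
      fan_eq hα hm ht (hedge t ht), hww2, Real.zero_rpow hα0.ne', Real.div_rpow (hh_nonneg _ _) hta.le,
      ta_rpow hα ht]
    have e : m₁ * kk α (WW α m₁ m₂) * ((0 - hh α (WW α m₁ m₂) ^ α / (α * t))
        / (0 - hh α (WW α m₁ m₂) / ta α t)) = m₁ * (ta α t / (α * t)) * WW α m₁ m₂ := by
      have := hta.ne'
      have := hat.ne'
      have := hm.ne'
      have := hh0.ne'
      have e1 : m₁ * kk α (WW α m₁ m₂) * ((0 - hh α (WW α m₁ m₂) ^ α / (α * t))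
          / (0 - hh α (WW α m₁ m₂) / ta α t))
          = m₁ * ta α t * (hh α (WW α m₁ m₂) ^ α * kk α (WW α m₁ m₂))
            / (hh α (WW α m₁ m₂) * (α * t)) := by
        rw [zero_sub, zero_sub, neg_div_neg_eq]
        field_simp
      rw [e1, hk]
      field_simp
    rw [e]
    exact h1

end main

/-- **MP_5288f0_an, Q1 (proved).** For every `α > 1`, `0 < ρ₁ < ρ₂` and `m₁, m₂ > 0` the pair of the
shocks of the two-bump solution exists, and for every such pair the shocks meet in finite time: they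
are apart before the explicit time `mergeTime`, and they meet at this time. -/
theorem result (α ρ₁ ρ₂ m₁ m₂ : ℝ) (hα : 1 < α) (_hρ₁ : 0 < ρ₁) (hρ : ρ₁ < ρ₂) (hm₁ : 0 < m₁)
    (hm₂ : 0 < m₂) :
    (∃ S₁ S₂ : ℝ → ℝ, TwoBump α ρ₁ ρ₂ m₁ m₂ S₁ S₂) ∧
    ∀ S₁ S₂ : ℝ → ℝ, TwoBump α ρ₁ ρ₂ m₁ m₂ S₁ S₂ →
      0 < mergeTime α ρ₁ ρ₂ m₁ m₂ ∧
      (∀ t, 0 < t → t < mergeTime α ρ₁ ρ₂ m₁ m₂ → S₁ t < S₂ t) ∧
      S₁ (mergeTime α ρ₁ ρ₂ m₁ m₂) = S₂ (mergeTime α ρ₁ ρ₂ m₁ m₂) :=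
  ⟨⟨_, _, exists_twoBump hα hm₁ hm₂ hρ⟩, fun _ _ h =>
    ⟨mergeTime_pos hα hm₁ hm₂ hρ, merge hα hm₁ hm₂ hρ h⟩⟩

end

end Pool.Agent.Results.MP_5288f0_an.ShocksMerge
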